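import Pool.Agent.H28.Ex7b

set_option autoImplicit false

namespace Pool.Agent.Results.MP_7230e4_co.MinimalNotTangential

open Pool.Agent.H28.TangDefs

/-- There is a geometry representable over some `GF(q)` with a modular copoint which is a minimal
`k`-block but, in every spanning representation, has a nonempty flat of rank at most `n - k`
without a tangent of codimension `k`. -/
theorem result : ∃ (F : Type) (_ : Field F) (_ : Fintype F) (k : ℕ) (m : ℕ) (M : Matroid (Fin m)),
    1 ≤ k ∧ IsSimple M ∧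
    (∃ (n : ℕ) (v : Fin m → Fin n → F), Represents F M v ∧ Submodule.span F (v '' M.E) = ⊤) ∧
    (∃ H, IsModularHyperplane M H) ∧
    ¬ CritLE (Fintype.card F) k M ∧ (∀ x ∈ M.E, CritLE (Fintype.card F) k (M.delete {x})) ∧
    ∀ (n : ℕ) (v : Fin m → Fin n → F), Represents F M v → Submodule.span F (v '' M.E) = ⊤ →
      ∃ Y : Set (Fin m), M.IsFlat Y ∧ Y.Nonempty ∧ M.eRk Y + k ≤ n ∧
        ¬ ∃ U : Submodule F (Fin n → F), Module.finrank F U + k = n ∧
          ∀ e ∈ M.E, (v e ∈ U ↔ e ∈ Y) := by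
  refine ⟨ZMod 7, inferInstance, inferInstance, 1, 26, Pool.Agent.H28.Ex7b.M, le_rfl,
    Pool.Agent.H28.Ex7b.simple, ⟨5, _, Pool.Agent.H28.Crit.represents_of_rep Pool.Agent.H28.Ex7b.rep,
    Pool.Agent.H28.Ex7b.spanning⟩, Pool.Agent.H28.Ex7b.modular, Pool.Agent.H28.Ex7b.block,
    fun x _ => Pool.Agent.H28.Ex7b.minimal x, fun n v hv hsp => ?_⟩
  have h := Pool.Agent.H28.Crit.rep_of_represents hv
  have hn := h.eRk (subset_refl _) (Set.toFinite _)
  rw [Pool.Agent.H28.Ex7b.rank, hsp, finrank_top, Module.finrank_fin_fun] at hn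
  refine ⟨{8, 11}, Pool.Agent.H28.Ex7b.flatY, by simp, ?_, ?_⟩
  · rw [Pool.Agent.H28.Ex7b.rankY, ← hn]
    decide
  · rintro ⟨U, hU, hUY⟩
    obtain ⟨w, hw⟩ : ∃ w, w ∉ U := by
      by_contra hcon
      push Not at hcon
      have : U = ⊤ := eq_top_iff.2 fun w _ => hcon w
      rw [this, finrank_top, Module.finrank_fin_fun] at hU
      omega
    obtain ⟨L, hLw, hle⟩ := Submodule.exists_le_ker_of_notMem hw
    have hlt : LinearMap.ker L < ⊤ := by
      rw [lt_top_iff_ne_top]
      intro hh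
      exact hLw (by rw [← LinearMap.mem_ker, hh]; trivial)
    have h3 := Submodule.finrank_lt_finrank_of_lt hlt
    rw [finrank_top, Module.finrank_fin_fun] at h3
    have heq : U = LinearMap.ker L := Submodule.eq_of_le_of_finrank_le hle (by omega)
    apply Pool.Agent.H28.Ex7b.notY
    rw [Pool.Agent.H28.Crit.critLE_contract_iff h 1 (Set.subset_univ _)]
    exact ⟨fun _ => L, fun _ c hc => hle ((hUY c trivial).2 hc),
      fun e he hn => ⟨0, fun h0 => hn ((hUY e he).1 (heq ▸ h0))⟩⟩

end Pool.Agent.Results.MP_7230e4_co.MinimalNotTangential
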